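import Pool.Agent.H27.L1.H68.GHY.Defs

/-!
Further targets of the board ghy: the Lipschitz constant of a spherical form.
-/

namespace Pool.Agent.H27.L1.H68.GHY

open MeasureTheory Pool.Agent.H27.L1.H34.GM Pool.Agent.H27.L1.H34.GZ Pool.Agent.H27.L1.H34.GU Pool.Agent.H27.L1.H34.GA

/-- doubling for the neighbourhoods of the orthogonal group -/
def T_DBK : Prop := ∀ m : ℕ, 1 ≤ m → ∃ C : ℝ, 1 ≤ C ∧ ∀ d : ℝ, 0 < d → C * d ≤ 1 →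
  hm m {z | ∑ i, ∑ j, (((mt z).transpose * mt z - 1) i j) ^ 2 ≤ (4 * d) ^ 2} ≤
    ENNReal.ofReal C *
      hm m {z | ∑ i, ∑ j, (((mt z).transpose * mt z - 1) i j) ^ 2 ≤ (d / 4) ^ 2}

/-- the Lipschitz constant of a spherical form -/
def T_SPL : Prop := ∀ m : ℕ, 1 ≤ m → ∃ C : ℝ, 1 ≤ C ∧
  ∀ (N : ℕ) [NeZero N] (T : ℕ → Finset (ZM m)) (D : Set (V m)), SysZ m N T D →
  ∀ (F : Mat m → VN m N → ℂ) (lam : ℕ → ℂ) (mu : Fin m → ℂ), EigU m N T F lam mu →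
  nU D F = 1 → ∀ P : ℝ, 1 + ∑ j, ‖mu j‖ ≤ P → Lip D F (C * P)

end Pool.Agent.H27.L1.H68.GHY
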