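import Pool.Agent.H27.L1.H34.GA.Targets1

/-!
Definitions of the board ghy: the fourth moment over the forms of level `N` with component at infinity
of size at most `P`, in the hybrid range (`N` and `P`).
-/

namespace Pool.Agent.H27.L1.H68.GHY

open MeasureTheory Pool.Agent.H27.L1.H34.GM Pool.Agent.H27.L1.H34.GZ Pool.Agent.H27.L1.H34.GU Pool.Agent.H27.L1.H34.GA

/-- bounded coefficients supported in `(y/2, y]` -/
structure Coe (y : ℝ) (a : ℕ → ℂ) : Prop where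
  bd : ∀ n, ‖a n‖ ≤ 1
  supp : ∀ n, a n ≠ 0 → y / 2 < (n : ℝ) ∧ (n : ℝ) ≤ y

/-- one term -/
noncomputable def tl (m : ℕ) (lam a : ℕ → ℂ) (n : ℕ) : ℂ :=
  a n * ((n : ℂ) ^ (((m : ℂ) - 1) / 2) * lam n)

/-- the Dirichlet polynomial -/
noncomputable def DP (m : ℕ) (lam a : ℕ → ℂ) (y t : ℝ) : ℂ :=
  ∑ n ∈ Finset.Icc 1 ⌊y⌋₊, tl m lam a n * (n : ℂ) ^ (-((t : ℂ) * Complex.I))

/-- the coefficients of its square -/
noncomputable def bq (m : ℕ) (lam a : ℕ → ℂ) (k : ℕ) : ℂ :=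
  ∑ p ∈ k.divisorsAntidiagonal, tl m lam a p.1 * tl m lam a p.2

/-- the window `(x, x e^d]` -/
def wd (x d : ℝ) (n : ℕ) : Prop := x < (n : ℝ) ∧ (n : ℝ) ≤ x * Real.exp d

open Classical in
/-- the short sum of the coefficients of the square -/
noncomputable def Bs (m : ℕ) (lam a : ℕ → ℂ) (y d x : ℝ) : ℂ :=
  ∑ k ∈ Finset.Icc 1 ⌊y ^ 2⌋₊, if wd x d k then bq m lam a k else 0

/-- the coefficient of an integer matrix: sum over the lattices between its row lattice and `Z^m` -/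
noncomputable def cg {m : ℕ} (a : ℕ → ℂ) (γ : ZM m) : ℂ :=
  ∑' M : {M : AddSubgroup (Fin m → ℤ) // ∀ i, γ i ∈ M},
    a (M : AddSubgroup (Fin m → ℤ)).index *
      a (γ.det.natAbs / (M : AddSubgroup (Fin m → ℤ)).index)

open Classical in
/-- the kernel -/
noncomputable def Kc {m N : ℕ} (Φ : Mat m → ℂ) (a : ℕ → ℂ) (d x0 : ℝ) (g : Mat m) (x : VN m N)
    (h : Mat m) (w : VN m N) : ℂ :=
  ∑' γ : ZM m, if ac N γ x = w ∧ Pr w ∧ γ.det ≠ 0 ∧ wd x0 d γ.det.natAbs then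
    cg a γ * Φ (kk (aN (cR γ)) h (cR γ) g) else 0

open Classical in
/-- its majorant -/
noncomputable def Kd {m N : ℕ} (d y x0 : ℝ) (g : Mat m) (x : VN m N) (h : Mat m) (w : VN m N) :
    ENNReal :=
  ∑' γ : ZM m, if ac N γ x = w ∧ Pr w ∧ wd x0 d γ.det.natAbs ∧
    y ^ 2 / 4 < (γ.det.natAbs : ℝ) ∧ (γ.det.natAbs : ℝ) ≤ y ^ 2 ∧
    sz (kk (aN (cR γ)) h (cR γ) g - 1) ≤ d then (NL γ : ENNReal) else 0

/-- the energy at `g` -/
noncomputable def Ed {m : ℕ} (N : ℕ) [NeZero N] (D : Set (V m)) (d y x0 : ℝ) (g : Mat m) :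
    ENNReal :=
  ∑ x : VN m N, ∫⁻ h in D, ∑ w : VN m N, (Kd d y x0 g x (mt h) w) ^ 2 ∂(hm m)

/-- the Dirichlet polynomial `∑ lam n n^(-1/2-it)` -/
noncomputable def SD (lam : ℕ → ℂ) (X t : ℝ) : ℂ :=
  ∑ n ∈ Finset.Icc 1 ⌊X⌋₊, lam n * (n : ℂ) ^ (-(1 / 2 + (t : ℂ) * Complex.I))

/-- a smooth window in the logarithmic scale and its Fourier transform -/
structure Win (w : ℝ → ℝ) (k : ℝ → ℂ) : Prop where
  cont : Continuous w
  nn : ∀ u, 0 ≤ w u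
  supp : ∀ u, w u ≠ 0 → |u| ≤ 1
  even : ∀ u, w (-u) = w u
  one : ∫ u, w u = 1
  ft : ∀ u : ℝ, (w u : ℂ) = ∫ τ : ℝ, k τ * Complex.exp (((τ * u : ℝ) : ℂ) * Complex.I)
  cint : Integrable k

/-- smooth cut-off at `R` -/
noncomputable def Wq (w : ℝ → ℝ) (R r : ℝ) : ℝ := ∫ v in Set.Iic (Real.log R), w (Real.log r - v)

/-- the window of the functional equation on the critical line -/
noncomputable def HW (m : ℕ) (w : ℝ → ℝ) (R : ℝ) (ψ : ℝ → ℂ) (lam : ℕ → ℂ) (t : ℝ) : ℂ :=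
  ∫ r in Set.Ioi (0 : ℝ), (Wq w R r : ℂ) * (thA m ψ lam r *
    ((r : ℝ) : ℂ) ^ (-((m : ℂ) * ((1 / 2 + (t : ℂ) * Complex.I) + ((m : ℂ) - 1) / 2)) - 1))

/-- the smoothed Dirichlet polynomial -/
noncomputable def JK (m : ℕ) (k : ℝ → ℂ) (lam : ℕ → ℂ) (X t : ℝ) : ℝ :=
  ∫ τ : ℝ, ‖k τ‖ * ‖SD lam X (t - τ / m)‖

/-- `(dD)^m` of the bump function -/
noncomputable def PH (m : ℕ) (χ : ℝ → ℝ) (d : ℝ) : Mat m → ℂ := dD^[m] (bi m χ d)

end Pool.Agent.H27.L1.H68.GHY
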